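import Pool.Agent.P.MP_9484ad_co.Main
import Pool.Agent.K.MP_4600d4_nt.C0

open Finset Pool.Agent.P.MP_9484ad_co Pool.Agent.P.MP_4600d4_nt

namespace Pool.Agent.Results.MP_4600d4_nt.SosBarrier

theorem result (p : ℕ) [NeZero p] (hp : p.Prime) (h4 : p % 4 = 1) (hb : 10 ^ 10 ≤ p)
    (k : ℝ) (hk : k ≤ √p / 4500) :
    ∃ μ : Finset (ZMod p) → Finset (ZMod p) → ℝ,
      ∑ A, ∑ B, μ A B = 1 ∧
      (∀ A B, μ A B ≠ 0 → ∀ a ∈ A, ∀ b ∈ B, a + b ≠ 0 ∧ IsSquare (a + b)) ∧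
      (∀ (c : ℝ) (u : ZMod p ⊕ ZMod p → ℝ) (w : ZMod p ⊕ ZMod p → ZMod p ⊕ ZMod p → ℝ),
        0 ≤ ∑ A, ∑ B, μ A B * (c + ∑ i ∈ A.disjSum B, u i +
          ∑ i ∈ A.disjSum B, ∑ j ∈ A.disjSum B, w i j) ^ 2) ∧
      ∀ (c : ℝ) (u : ZMod p ⊕ ZMod p → ℝ),
        0 ≤ ∑ A, ∑ B, μ A B * ((c + ∑ i ∈ A.disjSum B, u i) ^ 2 * (#A - k)) ∧
        0 ≤ ∑ A, ∑ B, μ A B * ((c + ∑ i ∈ A.disjSum B, u i) ^ 2 * (#B - k)) ∧
        0 ≤ ∑ A, ∑ B, μ A B * ((c + ∑ i ∈ A.disjSum B, u i) ^ 2 * ((#A - k) * (#B - k))) := by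
  haveI : Fact p.Prime := ⟨hp⟩
  have p0 : (0 : ℝ) < p := by exact_mod_cast hp.pos
  set r := √(p : ℝ) with hr
  have hq : r ^ 2 = p := Real.sq_sqrt p0.le
  have r0 : 0 < r := Real.sqrt_pos.2 p0
  have h : (10 : ℝ) ^ 5 ≤ r := by
    have : (10 : ℝ) ^ 10 ≤ p := by exact_mod_cast hb
    exact Real.le_sqrt_of_sq_le (by linarith)
  have hK : ringChar (ZMod p) ≠ 2 := by rw [ZMod.ringChar_zmod_n]; omega
  have h1 : IsSquare (-1 : ZMod p) := ZMod.exists_sq_eq_neg_one_iff.2 (by omega)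
  have e3 : 1 / (1124 * r) * r = 1 / 1124 := by field_simp
  have e4 : 1 / (1124 * r) * r ^ 2 = r / 1124 := by field_simp
  exact barrier (κ := 1 / (1124 * r)) (C := 1124) (r := r) hK h1
    (sos_layer (r := r) (B := 562 * r ^ 3) hK h1 (by linarith) (by simpa using hq)
      (by positivity) (by norm_num) (by linarith) (by rw [e3]; norm_num) (by rw [e3]; norm_num)
      (by
        rw [show (1 / (1124 * r)) ^ 3 * (562 * r ^ 3) = 562 / 1124 ^ 3 by field_simp]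
        norm_num)
      (by rw [show (1124 : ℝ) / 2 = 562 by norm_num]; exact hard_prime p (by omega) h4))
    (by positivity) (by linarith) (by simpa using hq) (by rw [e3]; norm_num)
    (by rw [e4]; linarith) (by rw [e4]; linarith)

end Pool.Agent.Results.MP_4600d4_nt.SosBarrier
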