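import Pool.Agent.K.MP_4600d4_nt.C10

set_option autoImplicit false

namespace Pool.Agent.Results.MP_4600d4_nt.SymmetricCase

/-- Let `G` be a multiplicative subgroup of order at least `C` and let `R`, `S` be non-empty sets of
non-zero residues. If for all `a ∈ R`, `b ∈ S` a proportion `3/4 + ε` of the sums `a g + b`, `g ∈ G`,
are squares, or such a proportion are non-squares, then `max |R| |G| * max |S| |G| * |G| ≤ C p`. -/
theorem result : ∀ ε : ℝ, 0 < ε → ∃ C : ℕ, ∀ (p : ℕ) [Fact p.Prime] (G : Subgroup (ZMod p)ˣ)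
    (R S : Finset (ZMod p)), C ≤ Nat.card G → R.Nonempty → S.Nonempty →
    (0 : ZMod p) ∉ R → (0 : ZMod p) ∉ S →
    (∀ a ∈ R, ∀ b ∈ S,
      (3 / 4 + ε) * (Nat.card G : ℝ) ≤
        (Nat.card {g : G // IsSquare (a * ((g : (ZMod p)ˣ) : ZMod p) + b)} : ℝ) ∨
      (3 / 4 + ε) * (Nat.card G : ℝ) ≤
        (Nat.card {g : G // ¬ IsSquare (a * ((g : (ZMod p)ˣ) : ZMod p) + b)} : ℝ)) →
    max R.card (Nat.card G) * max S.card (Nat.card G) * Nat.card G ≤ C * p :=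
  fun ε hε => Pool.Agent.P.MP_4600d4_nt.Ssh.main ε hε

/-- Special case of `result`: the negated form of the question when `A` is invariant under
`x ↦ β + g (x - β)`, `g ∈ G`, with `|G| > C p^0.02`. -/
theorem invariant_case : ∃ C : ℝ, ∀ (p : ℕ) [Fact p.Prime] (G : Subgroup (ZMod p)ˣ) (β : ZMod p)
    (A B : Finset (ZMod p)), (∀ a ∈ A, ∀ g ∈ G, β + (g : ZMod p) * (a - β) ∈ A) →
    C * (p : ℝ) ^ (0.02 : ℝ) < (Nat.card G : ℝ) →
    (p : ℝ) ^ (0.49 : ℝ) ≤ (A.card : ℝ) → (p : ℝ) ^ (0.49 : ℝ) ≤ (B.card : ℝ) →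
    ∃ a ∈ A, ∃ b ∈ B, ¬ IsSquare (a + b) :=
  Pool.Agent.P.MP_4600d4_nt.Ssh.invariant_case

/-- Special case of `result`: the sum of the quadratic character over a shifted subgroup. -/
theorem char_sum (ε : ℝ) (hε : 0 < ε) : ∃ C : ℕ, ∀ (p : ℕ) [Fact p.Prime] (G : Subgroup (ZMod p)ˣ)
    [Fintype G] (a : ZMod p), a ≠ 0 → C * p < Nat.card G ^ 3 →
    ((|∑ g : G, quadraticChar (ZMod p) (((g : (ZMod p)ˣ) : ZMod p) + a)| : ℤ) : ℝ) <
      (1 / 2 + ε) * (Nat.card G : ℝ) :=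
  Pool.Agent.P.MP_4600d4_nt.Ssh.char_sum ε hε

end Pool.Agent.Results.MP_4600d4_nt.SymmetricCase
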